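import Pool.Agent.W957.MF.Stm

/-! MF-AFP: clusters of pin chains give an alternation with a far point. -/

namespace Pool.Agent.W874.MFAFP

open Finset Pool.Agent.W957.MF

theorem sl_iff (s : Bool) (p q : ℤ) : sl s p q ↔ sg s p < sg s q := by
  cases s <;> simp [sl, sg]

theorem symT (a s1 s2 : Bool) (z : Conf) (n : ℕ) :
    Pool.Agent.W957.MF.symm a s1 s2 z true n = sg s1 (z a n) := by
  simp [Pool.Agent.W957.MF.symm]

theorem symF (a s1 s2 : Bool) (z : Conf) (n : ℕ) :
    Pool.Agent.W957.MF.symm a s1 s2 z false n = sg s2 (z (!a) n) := by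
  simp [Pool.Agent.W957.MF.symm]

/-- alternation or classes -/
theorem classes (X : ℕ → ℤ) (V L : ℕ → Prop) (T : ℕ) :
    (∃ u : ℕ → ℕ, (∀ i, i ≤ 2 * T → i % 2 = 0 → V (u i)) ∧
      (∀ i, i ≤ 2 * T → i % 2 = 1 → L (u i)) ∧
      ∀ i, i < 2 * T → X (u i) < X (u (i + 1))) ∨
    ∃ h : ℕ → ℕ, (∀ v, V v → h v < T) ∧ ∀ v v', V v → V v' → h v = h v' →
      ∀ l, L l → ¬ (X v < X l ∧ X l < X v') := by
  classical
  let R : ℕ → ℕ → Prop := fun n v => ∃ u : ℕ → ℕ, u (2 * n) = v ∧
      (∀ i, i ≤ 2 * n → i % 2 = 0 → V (u i)) ∧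
      (∀ i, i ≤ 2 * n → i % 2 = 1 → L (u i)) ∧
      ∀ i, i < 2 * n → X (u i) < X (u (i + 1))
  by_cases hT : ∃ v, R T v
  · left
    obtain ⟨v, u, _, h1, h2, h3⟩ := hT
    exact ⟨u, h1, h2, h3⟩
  · right
    have R0 : ∀ v, V v → R 0 v := by
      intro v hv
      refine ⟨fun _ => v, rfl, fun _ _ _ => hv, ?_, ?_⟩
      · intro i h1 h2; omega
      · intro i h1; omega
    have hlt : ∀ v, V v → Nat.findGreatest (fun n => R n v) T < T := by
      intro v hv
      have h1 : Nat.findGreatest (fun n => R n v) T ≤ T := Nat.findGreatest_le T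
      rcases Nat.lt_or_eq_of_le h1 with h | h
      · exact h
      · exfalso
        have h2 : R (Nat.findGreatest (fun n => R n v) T) v :=
          Nat.findGreatest_spec (P := fun n => R n v) (Nat.zero_le T) (R0 v hv)
        rw [h] at h2
        exact hT ⟨v, h2⟩
    refine ⟨fun v => Nat.findGreatest (fun n => R n v) T, hlt, ?_⟩
    intro v v' hv hv' hh l hl ⟨h1, h2⟩
    have hn := hlt v hv
    have hs : R (Nat.findGreatest (fun n => R n v) T) v :=
      Nat.findGreatest_spec (P := fun n => R n v) (Nat.zero_le T) (R0 v hv)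
    simp only at hh
    set n := Nat.findGreatest (fun n => R n v) T with hndef
    obtain ⟨u, hu, hV, hL, hX⟩ := hs
    have hR : R (n + 1) v' := by
      refine ⟨fun i => if i ≤ 2 * n then u i else if i = 2 * n + 1 then l else v', ?_, ?_, ?_, ?_⟩
      · have e1 : ¬ (2 * (n + 1) ≤ 2 * n) := by omega
        have e2 : ¬ (2 * (n + 1) = 2 * n + 1) := by omega
        simp only [e1, e2, if_false]
      · intro i hi h0
        by_cases e1 : i ≤ 2 * n
        · simp only [e1, if_true]; exact hV i e1 h0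
        · have e2 : ¬ (i = 2 * n + 1) := by omega
          simp only [e1, e2, if_false]; exact hv'
      · intro i hi h0
        by_cases e1 : i ≤ 2 * n
        · simp only [e1, if_true]; exact hL i e1 h0
        · have e2 : i = 2 * n + 1 := by omega
          subst e2
          simp only [e1, if_false, if_true]; exact hl
      · intro i hi
        by_cases e1 : i + 1 ≤ 2 * n
        · have e0 : i ≤ 2 * n := by omega
          simp only [e0, e1, if_true]; exact hX i (by omega)
        · by_cases e2 : i = 2 * n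
          · subst e2
            have e3 : ¬ (2 * n + 1 ≤ 2 * n) := by omega
            simp only [le_refl, e3, if_true, if_false, hu]
            exact h1
          · have e3 : i = 2 * n + 1 := by omega
            subst e3
            have e4 : ¬ (2 * n + 1 ≤ 2 * n) := by omega
            have e5 : ¬ (2 * n + 1 + 1 ≤ 2 * n) := by omega
            have e6 : ¬ (2 * n + 1 + 1 = 2 * n + 1) := by omega
            simp only [e4, e5, e6, if_true, if_false]
            exact h2
    have hle : n + 1 ≤ Nat.findGreatest (fun n => R n v') T :=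
      Nat.le_findGreatest (P := fun n => R n v') (by omega) hR
    omega

theorem mono_of_step (f : ℕ → ℤ) (N : ℕ) (h : ∀ i, i < N → f i < f (i + 1)) :
    ∀ j, j ≤ N → ∀ i, i < j → f i < f j := by
  intro j
  induction j with
  | zero => intro _ i hi; omega
  | succ j ih =>
    intro hj i hi
    rcases Nat.lt_succ_iff_lt_or_eq.1 hi with h1 | h1
    · exact (ih (by omega) i h1).trans (h j (by omega))
    · rw [h1]; exact h j (by omega)

def PinD (z : Conf) (c : ℕ → ℕ) (j : ℕ) (d : Bool × Bool × Bool) : Prop :=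
  (∀ i, 1 ≤ i → i < j → sl d.2.1 (z d.1 (c i)) (z d.1 (c j))) ∧
    (∀ i, 1 ≤ i → i + 1 < j → sl d.2.2 (z (!d.1) (c i)) (z (!d.1) (c j))) ∧
    sl d.2.2 (z (!d.1) (c j)) (z (!d.1) (c (j - 1)))

theorem pinAt_iff (z : Conf) (c : ℕ → ℕ) (j : ℕ) : PinAt z c j ↔ ∃ d, PinD z c j d := by
  constructor
  · rintro ⟨a, s, s', h⟩
    exact ⟨(a, s, s'), h⟩
  · rintro ⟨⟨a, s, s'⟩, h⟩
    exact ⟨a, s, s', h⟩

theorem pinAt_congr (z : Conf) (c c' : ℕ → ℕ) (j : ℕ) (hj : 2 ≤ j)
    (h : ∀ i, 1 ≤ i → i ≤ j → c i = c' i) (hp : PinAt z c j) : PinAt z c' j := by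
  obtain ⟨a, s, s', h1, h2, h3⟩ := hp
  refine ⟨a, s, s', ?_, ?_, ?_⟩
  · intro i hi hij
    rw [← h i hi hij.le, ← h j (by omega) le_rfl]; exact h1 i hi hij
  · intro i hi hij
    rw [← h i hi (by omega), ← h j (by omega) le_rfl]; exact h2 i hi hij
  · rw [← h (j - 1) (by omega) (by omega), ← h j (by omega) le_rfl]; exact h3

structure Good (z : Conf) (S : Finset ℕ) (m : ℕ) (I : Finset ℕ) (c : ℕ → ℕ → ℕ) (w : ℕ) :
    Prop where
  hw : w ∈ S
  mem : ∀ i ∈ I, ∀ j, 1 ≤ j → j ≤ m → c i j ∈ S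
  ord : ∀ i ∈ I, ∀ i' ∈ I, i < i' → ∀ j j', (j = 1 ∨ j = 2) → (j' = 1 ∨ j' = 2) →
    z true (c i j) < z true (c i' j')
  last : ∀ i ∈ I, c i m = w
  pin : ∀ i ∈ I, ∀ j, 3 ≤ j → j ≤ m → PinAt z (c i) j

theorem afp_zero (z : Conf) (S : Finset ℕ) (w : ℕ) (hw : w ∈ S) (a s1 s2 : Bool) :
    AFP (symm a s1 s2 z) S 0 := by
  refine ⟨fun _ => w, w, hw, ?_, ?_, ?_, ?_, ?_⟩
  · intro i hi; omega
  · intro i j hij hj; omega
  · intro i hi; omega
  · intro i hi; omega
  · intro i hi; omega

theorem exists_idx (I : Finset ℕ) (n : ℕ) (hn : n ≤ I.card) :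
    ∃ f : ℕ → ℕ, (∀ i, i < n → f i ∈ I) ∧ ∀ i j, i < j → j < n → f i < f j := by
  classical
  let g := I.orderEmbOfFin rfl
  refine ⟨fun i => if h : i < I.card then g ⟨i, h⟩ else 0, ?_, ?_⟩
  · intro i hi
    have h : i < I.card := by omega
    simp only [h, dif_pos]
    exact I.orderEmbOfFin_mem rfl _
  · intro i j hij hj
    have h1 : i < I.card := by omega
    have h2 : j < I.card := by omega
    simp only [h1, h2, dif_pos]
    exact g.strictMono (by simpa [Fin.lt_def] using hij)

theorem base (t : ℕ) (z : Conf) (S : Finset ℕ) (I : Finset ℕ) (c : ℕ → ℕ → ℕ) (w : ℕ)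
    (hG : Good z S 3 I c w) (hI : 8 * (2 * t + 2) ≤ I.card) :
    ∃ a s1 s2, AFP (symm a s1 s2 z) S t := by
  classical
  have hd : ∀ i ∈ I, ∃ d, PinD z (c i) 3 d := fun i hi =>
    (pinAt_iff z (c i) 3).1 (hG.pin i hi 3 le_rfl le_rfl)
  choose! D hD using hd
  obtain ⟨d, _, hd⟩ := Finset.exists_le_card_fiber_of_mul_le_card_of_maps_to
    (s := I) (t := (Finset.univ : Finset (Bool × Bool × Bool))) (f := D) (n := 2 * t + 2)
    (fun i _ => Finset.mem_univ _) Finset.univ_nonempty (by simpa using hI)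
  set J := I.filter (fun i => D i = d) with hJ
  have hJI : ∀ i ∈ J, i ∈ I := fun i hi => (Finset.mem_filter.1 hi).1
  have hJD : ∀ i ∈ J, PinD z (c i) 3 d := fun i hi => by
    have h1 := hD i (hJI i hi)
    rwa [(Finset.mem_filter.1 hi).2] at h1
  obtain ⟨a, s, s'⟩ := d
  obtain ⟨idx, hidx1, hidx2⟩ := exists_idx J (2 * t + 2) hd
  have ha : a = true := by
    by_contra hne
    have ha : a = false := by simpa using hne
    subst ha
    have m0 := hidx1 0 (by omega)
    have m1 := hidx1 1 (by omega)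
    have hlt := hidx2 0 1 (by omega) (by omega)
    obtain ⟨_, b0, c0⟩ := hJD _ m0
    obtain ⟨_, b1, c1⟩ := hJD _ m1
    have b0 := b0 1 (by omega) (by omega)
    have b1 := b1 1 (by omega) (by omega)
    simp only [Bool.not_false] at b0 b1 c0 c1
    rw [hG.last _ (hJI _ m0)] at b0 c0
    rw [hG.last _ (hJI _ m1)] at b1 c1
    have o11 := hG.ord _ (hJI _ m0) _ (hJI _ m1) hlt 1 1 (Or.inl rfl) (Or.inl rfl)
    have o12 := hG.ord _ (hJI _ m0) _ (hJI _ m1) hlt 1 2 (Or.inl rfl) (Or.inr rfl)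
    have o21 := hG.ord _ (hJI _ m0) _ (hJI _ m1) hlt 2 1 (Or.inr rfl) (Or.inl rfl)
    have o22 := hG.ord _ (hJI _ m0) _ (hJI _ m1) hlt 2 2 (Or.inr rfl) (Or.inr rfl)
    cases s' <;> simp [sl] at b0 b1 c0 c1 <;> omega
  subst ha
  have key : ∀ i ∈ J, sl s (z true (c i 1)) (z true w) ∧ sl s (z true (c i 2)) (z true w) ∧
      sl s' (z false (c i 1)) (z false w) ∧ sl s' (z false w) (z false (c i 2)) := by
    intro i hi
    obtain ⟨h1, h2, h3⟩ := hJD i hi
    have h1a := h1 1 (by omega) (by omega)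
    have h1b := h1 2 (by omega) (by omega)
    have h2 := h2 1 (by omega) (by omega)
    rw [hG.last _ (hJI _ hi)] at h1a h1b h2 h3
    exact ⟨h1a, h1b, h2, h3⟩
  refine ⟨true, s, s', ?_⟩
  let idx' : ℕ → ℕ := fun i => if s = true then idx i else idx (2 * t - 1 - i)
  have hm : ∀ i, i < 2 * t → idx' i ∈ J := by
    intro i hi
    by_cases hs : s = true
    · simp only [idx', hs, if_true]; exact hidx1 i (by omega)
    · simp only [idx', hs]; exact hidx1 _ (by omega)
  have hodd : ∀ i : ℕ, ((if i % 2 = 0 then 2 else 1 : ℕ) = 1 ∨ (if i % 2 = 0 then 2 else 1 : ℕ) = 2) := by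
    intro i; split_ifs <;> simp
  refine ⟨fun i => c (idx' i) (if i % 2 = 0 then 2 else 1), w, hG.hw, ?_, ?_, ?_, ?_, ?_⟩
  · intro i hi
    refine hG.mem _ (hJI _ (hm i hi)) _ ?_ ?_ <;> split_ifs <;> omega
  · intro i j hij hj
    have mi := hm i (by omega)
    have mj := hm j hj
    simp only [symT]
    cases s with
    | true =>
      simp only [sg]
      refine hG.ord _ (hJI _ mi) _ (hJI _ mj) ?_ _ _ (hodd i) (hodd j)
      simp only [idx', if_true]
      exact hidx2 i j hij (by omega)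
    | false =>
      simp only [sg]
      have := hG.ord _ (hJI _ mj) _ (hJI _ mi) (by
        simp only [idx', Bool.false_eq_true, if_false]
        exact hidx2 _ _ (by omega) (by omega)) _ _ (hodd j) (hodd i)
      omega
  · intro i hi
    simp only [symT]
    rw [← sl_iff]
    obtain ⟨k1, k2, _, _⟩ := key _ (hm i hi)
    split_ifs
    · exact k2
    · exact k1
  · intro i hi h0
    simp only [symF, h0, if_true, Bool.not_true]
    rw [← sl_iff]
    exact (key _ (hm i hi)).2.2.2
  · intro i hi h0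
    have h0' : ¬ (i % 2 = 0) := by omega
    simp only [symF, h0', if_false, Bool.not_true]
    rw [← sl_iff]
    exact (key _ (hm i hi)).2.2.1

theorem between_aux (s s1 : Bool) (p q q' : ℤ) (h1 : ¬ (sg s q < sg s p ∧ sg s p < sg s q'))
    (h2 : ¬ (sg s q' < sg s p ∧ sg s p < sg s q)) (hne : p ≠ q') :
    (sl s1 p q → sl s1 p q') ∧ (sl s1 q p → sl s1 q' p) := by
  cases s <;> cases s1 <;> simp only [sg, sl] at * <;> omega

theorem pin_last (z : Conf) (S : Finset ℕ) (hGP : GP z S) (a s s' : Bool) (j : ℕ) (j3 : 3 ≤ j)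
    (c : ℕ → ℕ) (w v : ℕ) (hvS : v ∈ S) (hcS : ∀ i, 1 ≤ i → i ≤ j → c i ∈ S)
    (hB : ∀ i, 1 ≤ i → i + 1 ≤ j → sl s' (z (!a) (c i)) (z (!a) w))
    (hcj : sl s' (z (!a) w) (z (!a) (c j))) (hcv : sl s' (z (!a) w) (z (!a) v))
    (hcl : ∀ i, 1 ≤ i → i + 1 ≤ j → ¬ (sg s (z a (c j)) < sg s (z a (c i)) ∧
      sg s (z a (c i)) < sg s (z a v)) ∧ ¬ (sg s (z a v) < sg s (z a (c i)) ∧
      sg s (z a (c i)) < sg s (z a (c j))))
    (hp : PinAt z c j) : PinAt z (fun i => if i = j then v else c i) j := by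
  obtain ⟨a1, s1, s1', hA1, hB1, hC1⟩ := hp
  have b1 := hB 1 (by omega) (by omega)
  have b2 := hB (j - 1) (by omega) (by omega)
  have ha1 : a1 = !a := by
    by_contra hne
    have ha1 : a1 = a := by
      revert hne; cases a1 <;> cases a <;> simp
    subst ha1
    have b3 := hB1 1 (by omega) (by omega)
    cases s' <;> cases s1' <;> simp only [sl] at b1 b2 b3 hC1 hcj <;> omega
  subst ha1
  simp only [Bool.not_not] at hB1 hC1
  have key : ∀ j', 1 ≤ j' → j' + 1 ≤ j →
      (sl s1' (z a (c j')) (z a (c j)) → sl s1' (z a (c j')) (z a v)) ∧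
      (sl s1' (z a (c j)) (z a (c j')) → sl s1' (z a v) (z a (c j'))) := by
    intro j' k1 k2
    apply between_aux s s1'
    · exact (hcl j' k1 k2).1
    · exact (hcl j' k1 k2).2
    · intro heq
      have h1 := hGP a (hcS j' k1 (by omega)) hvS heq
      have h2 := hB j' k1 k2
      rw [h1] at h2
      cases s' <;> simp only [sl] at h2 hcv <;> omega
  refine ⟨!a, s', s1', ?_, ?_, ?_⟩
  · intro j' k1 k2
    have e1 : ¬ (j' = j) := by omega
    simp only [e1, if_false, if_true]
    have h2 := hB j' k1 (by omega)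
    cases s' <;> simp only [sl] at h2 hcv ⊢ <;> omega
  · intro j' k1 k2
    have e1 : ¬ (j' = j) := by omega
    simp only [e1, if_false, if_true, Bool.not_not]
    exact (key j' k1 (by omega)).1 (hB1 j' k1 k2)
  · have e1 : ¬ (j - 1 = j) := by omega
    simp only [e1, if_false, if_true, Bool.not_not]
    exact (key (j - 1) (by omega) (by omega)).2 hC1

theorem step (t m : ℕ) (hm : 3 ≤ m) (F : ℕ)
    (ih : ∀ (z : Conf) (S : Finset ℕ), GP z S → ∀ (I : Finset ℕ) (c : ℕ → ℕ → ℕ) (w : ℕ),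
      Good z S m I c w → F ≤ I.card → ∃ a s1 s2, AFP (Pool.Agent.W957.MF.symm a s1 s2 z) S t)
    (z : Conf) (S : Finset ℕ) (hGP : GP z S) (I : Finset ℕ) (c : ℕ → ℕ → ℕ) (w : ℕ)
    (hG : Good z S (m + 1) I c w) (hI : 8 * (t * (F + 1)) ≤ I.card) :
    ∃ a s1 s2, AFP (Pool.Agent.W957.MF.symm a s1 s2 z) S t := by
  classical
  rcases Nat.eq_zero_or_pos t with ht | ht
  · subst ht
    exact ⟨true, true, true, afp_zero z S w hG.hw _ _ _⟩
  have hd : ∀ i ∈ I, ∃ d, PinD z (c i) (m + 1) d := fun i hi =>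
    (pinAt_iff z (c i) (m + 1)).1 (hG.pin i hi (m + 1) (by omega) le_rfl)
  choose! D hD using hd
  obtain ⟨d, _, hd⟩ := Finset.exists_le_card_fiber_of_mul_le_card_of_maps_to
    (s := I) (t := (Finset.univ : Finset (Bool × Bool × Bool))) (f := D) (n := t * (F + 1))
    (fun i _ => Finset.mem_univ _) Finset.univ_nonempty (by simpa using hI)
  set J := I.filter (fun i => D i = d) with hJ
  have hJI : ∀ i ∈ J, i ∈ I := fun i hi => (Finset.mem_filter.1 hi).1
  have hJD : ∀ i ∈ J, PinD z (c i) (m + 1) d := fun i hi => by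
    have h1 := hD i (hJI i hi)
    rwa [(Finset.mem_filter.1 hi).2] at h1
  obtain ⟨a, s, s'⟩ := d
  have hA : ∀ i ∈ J, ∀ j, 1 ≤ j → j ≤ m → sl s (z a (c i j)) (z a w) := by
    intro i hi j h1 h2
    have h3 := (hJD i hi).1 j h1 (by omega)
    rwa [hG.last i (hJI i hi)] at h3
  have hB : ∀ i ∈ J, ∀ j, 1 ≤ j → j + 1 ≤ m → sl s' (z (!a) (c i j)) (z (!a) w) := by
    intro i hi j h1 h2
    have h3 := (hJD i hi).2.1 j h1 (by omega)
    rwa [hG.last i (hJI i hi)] at h3
  have hC : ∀ i ∈ J, sl s' (z (!a) w) (z (!a) (c i m)) := by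
    intro i hi
    have h3 := (hJD i hi).2.2
    rwa [hG.last i (hJI i hi)] at h3
  rcases classes (fun n => sg s (z a n)) (fun v => ∃ i ∈ J, v = c i m)
    (fun l => ∃ i ∈ J, ∃ j, 1 ≤ j ∧ j + 1 ≤ m ∧ l = c i j) t with
    ⟨u, hV, hL, hX⟩ | ⟨h, hh1, hh2⟩
  · refine ⟨a, s, s', u, w, hG.hw, ?_, ?_, ?_, ?_, ?_⟩
    · intro i hi
      rcases Nat.mod_two_eq_zero_or_one i with h0 | h0
      · obtain ⟨i', hi', he⟩ := hV i (by omega) h0
        rw [he]; exact hG.mem _ (hJI _ hi') _ (by omega) (by omega)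
      · obtain ⟨i', hi', j, j1, j2, he⟩ := hL i (by omega) h0
        rw [he]; exact hG.mem _ (hJI _ hi') _ (by omega) (by omega)
    · intro i j hij hj
      simp only [symT]
      exact mono_of_step (fun i => sg s (z a (u i))) (2 * t) hX j (by omega) i hij
    · intro i hi
      simp only [symT]
      rw [← sl_iff]
      rcases Nat.mod_two_eq_zero_or_one i with h0 | h0
      · obtain ⟨i', hi', he⟩ := hV i (by omega) h0
        rw [he]; exact hA _ hi' _ (by omega) (by omega)
      · obtain ⟨i', hi', j, j1, j2, he⟩ := hL i (by omega) h0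
        rw [he]; exact hA _ hi' _ (by omega) (by omega)
    · intro i hi h0
      simp only [symF]
      rw [← sl_iff]
      obtain ⟨i', hi', he⟩ := hV i (by omega) h0
      rw [he]; exact hC _ hi'
    · intro i hi h0
      simp only [symF]
      rw [← sl_iff]
      obtain ⟨i', hi', j, j1, j2, he⟩ := hL i (by omega) h0
      rw [he]; exact hB _ hi' _ j1 j2
  · obtain ⟨n0, _, hn0⟩ := Finset.exists_le_card_fiber_of_mul_le_card_of_maps_to
      (s := J) (t := Finset.range t) (f := fun i => h (c i m)) (n := F + 1)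
      (fun i hi => Finset.mem_range.2 (hh1 _ ⟨i, hi, rfl⟩)) ⟨0, Finset.mem_range.2 ht⟩
      (by simpa using hd)
    set K := J.filter (fun i => h (c i m) = n0) with hK
    have hKJ : ∀ i ∈ K, i ∈ J := fun i hi => (Finset.mem_filter.1 hi).1
    have hKh : ∀ i ∈ K, h (c i m) = n0 := fun i hi => (Finset.mem_filter.1 hi).2
    have hKne : K.Nonempty := by
      rw [← Finset.card_pos]; omega
    obtain ⟨i0, hi0⟩ := hKne
    set v := c i0 m with hv
    have hvS : v ∈ S := hG.mem _ (hJI _ (hKJ _ hi0)) _ (by omega) (by omega)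
    refine ih z S hGP K (fun i j => if j = m then v else c i j) v ⟨hvS, ?_, ?_, ?_, ?_⟩ (by omega)
    · intro i hi j j1 j2
      by_cases e : j = m
      · simp only [e, if_true]; exact hvS
      · simp only [e, if_false]; exact hG.mem _ (hJI _ (hKJ _ hi)) _ j1 (by omega)
    · intro i hi i' hi' hii j j' hj hj'
      have e1 : ¬ (j = m) := by omega
      have e2 : ¬ (j' = m) := by omega
      simp only [e1, e2, if_false]
      exact hG.ord _ (hJI _ (hKJ _ hi)) _ (hJI _ (hKJ _ hi')) hii _ _ hj hj'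
    · intro i hi
      simp
    · intro i hi j j3 jm
      have hiJ := hKJ _ hi
      have hiI := hJI _ hiJ
      by_cases e : j = m
      · subst e
        refine pin_last z S hGP a s s' j j3 (c i) w v hvS (fun i' k1 k2 =>
          hG.mem i hiI i' k1 (by omega)) (hB i hiJ) (hC i hiJ) (hC i0 (hKJ _ hi0)) ?_
          (hG.pin i hiI j j3 (by omega))
        intro j' k1 k2
        exact ⟨hh2 _ _ ⟨i, hiJ, rfl⟩ ⟨i0, hKJ _ hi0, rfl⟩
              (by rw [hKh i hi, hKh i0 hi0]) _ ⟨i, hiJ, j', k1, k2, rfl⟩,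
          hh2 _ _ ⟨i0, hKJ _ hi0, rfl⟩ ⟨i, hiJ, rfl⟩
              (by rw [hKh i hi, hKh i0 hi0]) _ ⟨i, hiJ, j', k1, k2, rfl⟩⟩
      · refine pinAt_congr z (c i) _ j (by omega) ?_ (hG.pin i hiI j j3 (by omega))
        intro i' k1 k2
        have e1 : ¬ (i' = m) := by omega
        simp only [e1, if_false]

theorem clusters (t : ℕ) : ∀ m, 3 ≤ m → ∃ F : ℕ, ∀ (z : Conf) (S : Finset ℕ), GP z S →
    ∀ (I : Finset ℕ) (c : ℕ → ℕ → ℕ) (w : ℕ), Good z S m I c w → F ≤ I.card →
      ∃ a s1 s2, AFP (Pool.Agent.W957.MF.symm a s1 s2 z) S t := by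
  intro m hm
  induction m, hm using Nat.le_induction with
  | base =>
    exact ⟨8 * (2 * t + 2), fun z S _ I c w hG hI => base t z S I c w hG hI⟩
  | succ m hm ih =>
    obtain ⟨F, hF⟩ := ih
    exact ⟨8 * (t * (F + 1)), fun z S hGP I c w hG hI => step t m hm F hF z S hGP I c w hG hI⟩

theorem exists_sorted (f : ℕ → ℤ) (S : Finset ℕ) (hf : Set.InjOn f (S : Set ℕ)) :
    ∃ g : ℕ → ℕ, (∀ i, i < S.card → g i ∈ S) ∧
      (∀ i j, i < j → j < S.card → f (g i) < f (g j)) ∧ ∀ x ∈ S, ∃ i < S.card, g i = x := by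
  classical
  have hc : (S.image f).card = S.card := Finset.card_image_of_injOn hf
  let e := (S.image f).orderEmbOfFin hc
  have he : ∀ i, ∃ x ∈ S, f x = e i := by
    intro i
    exact Finset.mem_image.1 ((S.image f).orderEmbOfFin_mem hc i)
  choose y hyS hy using he
  refine ⟨fun i => if h : i < S.card then y ⟨i, h⟩ else 0, ?_, ?_, ?_⟩
  · intro i hi
    simp only [hi, dif_pos]; exact hyS _
  · intro i j hij hj
    have hi : i < S.card := by omega
    simp only [hi, hj, dif_pos]
    rw [hy, hy]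
    exact e.strictMono (by simpa [Fin.lt_def] using hij)
  · intro x hx
    have hx' : f x ∈ Set.range e := by
      rw [Finset.range_orderEmbOfFin]
      exact Finset.mem_coe.2 (Finset.mem_image_of_mem f hx)
    obtain ⟨i, hi⟩ := hx'
    refine ⟨i, i.2, ?_⟩
    simp only [i.2, dif_pos]
    exact hf (hyS _) hx (by rw [hy]; exact hi)

theorem t_AFP (hch : S_CHAIN) : S_AFP := by
  classical
  intro k t
  choose! F hF using clusters t
  let G : ℕ := ∑ m ∈ Finset.range k, F m
  have hGle : ∀ m, m < k → F m ≤ G := fun m hm =>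
    Finset.single_le_sum (f := F) (fun _ _ => Nat.zero_le _) (Finset.mem_range.2 hm)
  refine ⟨2 * (k * (G + 1) + 1) + 1, fun z S hGP hS hM => ?_⟩
  set N := k * (G + 1) + 1 with hN
  obtain ⟨g, g1, g2, g3⟩ := exists_sorted (z true) S (hGP true)
  have hr : g (S.card - 1) ∈ S := g1 _ (by omega)
  have hex : ∀ i, i < N → ∃ (m : ℕ) (c : ℕ → ℕ), 3 ≤ m ∧ c 1 = g (2 * i) ∧ c 2 = g (2 * i + 1) ∧
      c m = g (S.card - 1) ∧ (∀ j, 1 ≤ j → j ≤ m → c j ∈ S) ∧
      (∀ i j, 1 ≤ i → i < j → j ≤ m → c i ≠ c j) ∧ (∀ j, 3 ≤ j → j ≤ m → PinAt z c j) := by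
    intro i hi
    have x1 := g2 (2 * i) (2 * i + 1) (by omega) (by omega)
    have x2 := g2 (2 * i + 1) (S.card - 1) (by omega) (by omega)
    obtain ⟨m, c, m3, c1, c2, cm, cS, cne, ccut, cpin, cpin3⟩ :=
      hch z S (g (2 * i)) (g (2 * i + 1)) (g (S.card - 1)) hGP hS (g1 _ (by omega))
        (g1 _ (by omega)) hr (by intro h; rw [h] at x1; omega) (by intro h; rw [h] at x2; omega)
        (by intro h; rw [h] at x2; omega)
    refine ⟨m, c, m3, c1, c2, cm, cS, cne, ?_⟩
    intro j j3 jm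
    rcases Nat.lt_or_ge 3 j with h4 | h4
    · exact cpin j h4 jm
    · have hj : j = 3 := by omega
      subst hj
      rcases Nat.lt_or_ge 3 m with h5 | h5
      · exact cpin3 h5
      · have hm : m = 3 := by omega
        subst hm
        obtain ⟨b, i1, i2, p1, p2, p3, p4, q1, q2⟩ := ccut 3 le_rfl le_rfl
        have e1 : i1 = 1 ∨ i1 = 2 := by omega
        have e2 : i2 = 1 ∨ i2 = 2 := by omega
        rw [cm] at q1 q2
        have hb : b = false := by
          by_contra hb
          have hb : b = true := by simpa using hb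
          subst hb
          rcases e2 with rfl | rfl
          · rw [c1] at q2; omega
          · rw [c2] at q2; omega
        subst hb
        have hx : ∀ i', 1 ≤ i' → i' < 3 → sl true (z true (c i')) (z true (c 3)) := by
          intro i' k1 k2
          have : i' = 1 ∨ i' = 2 := by omega
          rw [cm]
          rcases this with rfl | rfl
          · rw [c1]; simp only [sl]; omega
          · rw [c2]; simp only [sl]; omega
        have h12 : (i1 = 1 ∧ i2 = 2) ∨ (i1 = 2 ∧ i2 = 1) := by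
          rcases e1 with rfl | rfl <;> rcases e2 with rfl | rfl <;> simp at q1 q2 ⊢ <;> omega
        rcases h12 with ⟨rfl, rfl⟩ | ⟨rfl, rfl⟩
        · refine ⟨true, true, true, hx, ?_, ?_⟩
          · intro i' k1 k2
            have : i' = 1 := by omega
            subst this
            simpa [sl, cm] using q1
          · simpa [sl, cm] using q2
        · refine ⟨true, true, false, hx, ?_, ?_⟩
          · intro i' k1 k2
            have : i' = 1 := by omega
            subst this
            simpa [sl, cm] using q2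
          · simpa [sl, cm] using q1
  choose! m c m3 c1 c2 cm cS cne cpin using hex
  by_cases hk : ∃ i, i < N ∧ k ≤ m i
  · left
    obtain ⟨i, hi, hk⟩ := hk
    refine ⟨c i, ?_, ?_, ?_⟩
    · intro j j1 j2; exact cS i hi j j1 (by omega)
    · intro i' j' h1 h2 h3; exact cne i hi i' j' h1 h2 (by omega)
    · intro j j3 jk; exact cpin i hi j j3 (by omega)
  · right
    push Not at hk
    have hkpos : 0 < k := lt_of_le_of_lt (Nat.zero_le _) (hk 0 (by omega))
    obtain ⟨m0, hm0, hcard⟩ := Finset.exists_le_card_fiber_of_mul_le_card_of_maps_to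
      (s := Finset.range N) (t := Finset.range k) (f := m) (n := G + 1)
      (fun i hi => Finset.mem_range.2 (hk i (Finset.mem_range.1 hi))) ⟨0, Finset.mem_range.2 hkpos⟩
      (by simp only [Finset.card_range]; omega)
    set I := (Finset.range N).filter (fun i => m i = m0) with hI
    rcases Nat.lt_or_ge m0 3 with hlt | hge
    · exfalso
      have hne : I.Nonempty := by rw [← Finset.card_pos]; omega
      obtain ⟨i, hi⟩ := hne
      have h1 := m3 i (Finset.mem_range.1 (Finset.mem_filter.1 hi).1)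
      rw [(Finset.mem_filter.1 hi).2] at h1
      omega
    · have hIlt : ∀ i ∈ I, i < N := fun i hi =>
        Finset.mem_range.1 (Finset.mem_filter.1 hi).1
      have hIm : ∀ i ∈ I, m i = m0 := fun i hi => (Finset.mem_filter.1 hi).2
      refine hF m0 hge z S hGP I c (g (S.card - 1)) ⟨hr, ?_, ?_, ?_, ?_⟩ ?_
      · intro i hi j j1 j2
        exact cS i (hIlt i hi) j j1 (by rw [hIm i hi]; exact j2)
      · intro i hi i' hi' hii j j' hj hj'
        have hi1 := hIlt i hi
        have hi2 := hIlt i' hi'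
        rcases hj with rfl | rfl <;> rcases hj' with rfl | rfl
        · rw [c1 i hi1, c1 i' hi2]; exact g2 _ _ (by omega) (by omega)
        · rw [c1 i hi1, c2 i' hi2]; exact g2 _ _ (by omega) (by omega)
        · rw [c2 i hi1, c1 i' hi2]; exact g2 _ _ (by omega) (by omega)
        · rw [c2 i hi1, c2 i' hi2]; exact g2 _ _ (by omega) (by omega)
      · intro i hi
        have := cm i (hIlt i hi)
        rwa [hIm i hi] at this
      · intro i hi j j3 jm
        exact cpin i (hIlt i hi) j j3 (by rw [hIm i hi]; exact jm)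
      · exact (hGle m0 (Finset.mem_range.1 hm0)).trans (by omega)

end Pool.Agent.W874.MFAFP
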